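import Pool.Agent.H672R2.Auto.Interval
import Pool.Agent.H672R2.Auto.Cong

set_option autoImplicit false

/-! Variants of the nested interval and nested congruence lemmas with prescribed start. -/

namespace Pool.Agent.W275.Hind

open Pool.Agent.H672R2.Auto

/-- nested intervals inside `[A, A (1 + η)]` -/
theorem nested' {ι : Type*} (s : Finset ι) (k μ u : ι → ℕ) (hk : ∀ t ∈ s, 2 ≤ k t)
    (hu : ∀ t ∈ s, u t < k t ^ μ t) {η : ℝ} (hη : 0 < η) (hη1 : η ≤ 1) :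
    ∃ δ : ℝ, 0 < δ ∧ δ ≤ 1 ∧ ∀ H : ℕ, ∃ A0 : ℝ, 0 < A0 ∧ ∀ A : ℝ, A0 ≤ A → ∃ A' : ℝ, A ≤ A' ∧
      A' * (1 + δ) ≤ A * (1 + η) ∧
      ∀ t ∈ s, ∃ θ w : ℕ, H ≤ θ ∧ 0 < w ∧ (k t : ℝ) ^ θ * ((u t + k t ^ μ t * w : ℕ) : ℝ) ≤ A' ∧
        A' * (1 + δ) ≤ (k t : ℝ) ^ θ * ((u t + k t ^ μ t * w : ℕ) : ℝ) + (k t : ℝ) ^ θ := by
  classical
  induction s using Finset.induction_on with
  | empty => exact ⟨η, hη, hη1, fun H => ⟨1, one_pos, fun A _ => ⟨A, le_rfl, le_rfl, by simp⟩⟩⟩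
  | insert t0 s hs ih =>
    obtain ⟨δ, hδ, hδ1, ih⟩ := ih (fun t ht => hk t (Finset.mem_insert_of_mem ht))
      (fun t ht => hu t (Finset.mem_insert_of_mem ht))
    have hk0 : 2 ≤ k t0 := hk t0 (Finset.mem_insert_self _ _)
    have hu0 : u t0 < k t0 ^ μ t0 := hu t0 (Finset.mem_insert_self _ _)
    have hkr : (2 : ℝ) ≤ k t0 := by exact_mod_cast hk0
    set K : ℝ := (k t0 : ℝ) with hK
    have hK0 : 0 < K := by linarith
    have hKμ : 0 < K ^ μ t0 := by positivity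
    have hKμ1 : 1 ≤ K ^ (μ t0 + 1) := one_le_pow₀ (by linarith)
    refine ⟨δ / (4 * K ^ (μ t0 + 1)), by positivity, ?_, ?_⟩
    · rw [div_le_one (by positivity)]
      linarith
    intro H
    obtain ⟨A0, hA0, hA⟩ := ih H
    refine ⟨max A0 (2 * K ^ μ t0 * K ^ (H + 1) / δ), lt_max_of_lt_left hA0, ?_⟩
    intro A hAge
    obtain ⟨A', hAA', hup, hgood⟩ := hA A (le_trans (le_max_left _ _) hAge)
    have hA'2 : 2 * K ^ μ t0 * K ^ (H + 1) / δ ≤ A' :=
      le_trans (le_trans (le_max_right _ _) hAge) hAA'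
    have hA'pos : 0 < A' := lt_of_lt_of_le (by positivity) hA'2
    set x : ℝ := A' * δ / (2 * K ^ μ t0) with hx
    have hxge : K ^ (H + 1) ≤ x := by
      rw [hx, le_div_iff₀ (by positivity)]
      rw [div_le_iff₀ hδ] at hA'2
      linarith
    have hx1 : 1 ≤ x := le_trans (one_le_pow₀ (by linarith)) hxge
    obtain ⟨θ, hθ1, hθ2⟩ := exists_nat_pow_near hx1 (show (1 : ℝ) < K by linarith)
    have hHθ : H ≤ θ := by
      have h1 : K ^ (H + 1) < K ^ (θ + 1) := lt_of_le_of_lt hxge hθ2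
      have := (pow_lt_pow_iff_right₀ (show (1 : ℝ) < K by linarith)).1 h1
      omega
    have hcell : 2 * (K ^ θ * K ^ μ t0) ≤ A' * δ := by
      rw [hx, le_div_iff₀ (by positivity)] at hθ1
      linarith
    set L : ℝ := K ^ θ * K ^ μ t0 with hL
    have hLpos : 0 < L := by positivity
    set j : ℕ := ⌈A' / L⌉₊ with hj
    have hjpos : 0 < j := by
      rw [hj, Nat.ceil_pos]
      positivity
    have hj1 : A' ≤ j * L := by
      have := Nat.le_ceil (A' / L)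
      rw [div_le_iff₀ hLpos] at this
      exact this
    have hj2 : (j : ℝ) * L < A' + L := by
      have := Nat.ceil_lt_add_one (show 0 ≤ A' / L by positivity)
      have h2 : (j : ℝ) * L < (A' / L + 1) * L := mul_lt_mul_of_pos_right this hLpos
      have h3 : (A' / L + 1) * L = A' + L := by field_simp
      linarith
    have hA''ge : A' ≤ K ^ θ * ((u t0 + k t0 ^ μ t0 * j : ℕ) : ℝ) := by
      push_cast
      rw [← hK]
      have : (0 : ℝ) ≤ K ^ θ * (u t0 : ℝ) := by positivity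
      calc A' ≤ j * L := hj1
        _ ≤ K ^ θ * (u t0 : ℝ) + j * L := by linarith
        _ = K ^ θ * ((u t0 : ℝ) + K ^ μ t0 * j) := by rw [hL]; ring
    have hA''le : K ^ θ * ((u t0 + k t0 ^ μ t0 * j : ℕ) : ℝ) + K ^ θ ≤ A' * (1 + δ) := by
      push_cast
      rw [← hK]
      have h1 : (u t0 : ℝ) + 1 ≤ K ^ μ t0 := by
        rw [hK]; exact_mod_cast hu0
      calc K ^ θ * ((u t0 : ℝ) + K ^ μ t0 * j) + K ^ θ = K ^ θ * ((u t0 : ℝ) + 1) + j * L := by
            rw [hL]; ring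
        _ ≤ K ^ θ * K ^ μ t0 + j * L := by
            have := mul_le_mul_of_nonneg_left h1 (show 0 ≤ K ^ θ by positivity)
            linarith
        _ ≤ A' * (1 + δ) := by rw [← hL]; nlinarith
    set A'' : ℝ := K ^ θ * ((u t0 + k t0 ^ μ t0 * j : ℕ) : ℝ) with hA''
    have hnew : A'' * (1 + δ / (4 * K ^ (μ t0 + 1))) ≤ A'' + K ^ θ := by
      have h1 : A'' ≤ 2 * A' := by
        have : 0 < K ^ θ := by positivity
        nlinarith
      have h2 : A' * δ / (2 * K ^ (μ t0 + 1)) ≤ K ^ θ := by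
        have h3 : x < K ^ (θ + 1) := hθ2
        rw [hx, div_lt_iff₀ (by positivity)] at h3
        rw [div_le_iff₀ (by positivity)]
        have : K ^ (θ + 1) * (2 * K ^ μ t0) = K ^ θ * (2 * K ^ (μ t0 + 1)) := by
          rw [pow_succ, pow_succ]; ring
        linarith
      have h4 : A'' * (δ / (4 * K ^ (μ t0 + 1))) ≤ A' * δ / (2 * K ^ (μ t0 + 1)) := by
        have h5 : A'' * (δ / (4 * K ^ (μ t0 + 1))) ≤ (2 * A') * (δ / (4 * K ^ (μ t0 + 1))) :=
          mul_le_mul_of_nonneg_right h1 (by positivity)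
        refine le_trans h5 (le_of_eq ?_)
        field_simp
        ring
      nlinarith
    refine ⟨A'', le_trans hAA' hA''ge, le_trans hnew (le_trans hA''le hup), ?_⟩
    intro t ht
    rcases Finset.mem_insert.1 ht with rfl | ht
    · exact ⟨θ, j, hHθ, hjpos, le_rfl, hnew⟩
    · obtain ⟨θ', w', h1, h0, h2, h3⟩ := hgood t ht
      exact ⟨θ', w', h1, h0, le_trans h2 hA''ge, le_trans hnew (le_trans hA''le h3)⟩

/-- nested congruences starting from a given residue class -/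
theorem nested_cong' {m : ℕ} (k : Fin m → ℕ) {K : ℕ} (D : ∀ t, Dec K (k t)) (μ u : Fin m → ℕ)
    (hu : ∀ t, u t < k t ^ μ t) (Mi fi : ℕ) (hMi : 1 ≤ Mi) :
    ∃ Mo f0 : ℕ, 1 ≤ Mo ∧ Mi ∣ Mo ∧ f0 ≡ fi [MOD Mi] ∧ ∃ Λ v : Fin m → ℕ, ∀ t, v t < k t ^ Λ t ∧
      (∃ s low, low < k t ^ s ∧ Λ t = s + μ t ∧ v t = low + k t ^ s * u t) ∧
      (D t).k1 ^ Λ t ∣ v t ∧ (D t).k0 ^ Λ t ∣ Mo ∧ f0 ≡ v t [MOD (D t).k0 ^ Λ t] := by
  classical
  suffices H : ∀ S : Finset (Fin m), ∃ Mo f0 : ℕ, 1 ≤ Mo ∧ Mi ∣ Mo ∧ f0 ≡ fi [MOD Mi] ∧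
      ∃ Λ v : Fin m → ℕ, ∀ t ∈ S,
      v t < k t ^ Λ t ∧
      (∃ s low, low < k t ^ s ∧ Λ t = s + μ t ∧ v t = low + k t ^ s * u t) ∧
      (D t).k1 ^ Λ t ∣ v t ∧ (D t).k0 ^ Λ t ∣ Mo ∧ f0 ≡ v t [MOD (D t).k0 ^ Λ t] by
    obtain ⟨Mo, f0, h1, h1', h1'', Λ, v, h2⟩ := H Finset.univ
    exact ⟨Mo, f0, h1, h1', h1'', Λ, v, fun t => h2 t (Finset.mem_univ t)⟩
  intro S
  induction S using Finset.induction_on with
  | empty => exact ⟨Mi, fi, hMi, dvd_rfl, rfl, fun _ => 0, fun _ => 0, by simp⟩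
  | insert t S htS ih =>
    obtain ⟨Mo, f0, hMo, hdv, hfi, Λ, v, hS⟩ := ih
    obtain ⟨a0, a1, j, h1, h2, h3⟩ := split_part (D t).k0 Mo hMo
    set k0 := (D t).k0 with hk0
    set k1 := (D t).k1 with hk1
    have hk02 : 2 ≤ k0 := (D t).hk0
    have hkt : k t = k0 * k1 := (D t).hk
    have hcop : Nat.Coprime k0 k1 := (D t).cop
    have hk1pos : 1 ≤ k1 := by
      by_contra hc
      have h0 : k1 = 0 := by omega
      rw [h0] at hcop
      have : k0 = 1 := by simpa using hcop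
      omega
    have hkpos : 0 < k t := by rw [hkt]; positivity
    have ha1 : 1 ≤ a1 := by
      by_contra hc
      have : a1 = 0 := by omega
      subst this
      omega
    set s : ℕ := j + k1 ^ μ t with hs
    set L : ℕ := s + μ t with hL
    -- the target residue mod k1 ^ L
    set r1 : ℕ := (k1 ^ L - 1) * (k t ^ s * u t) with hr1
    obtain ⟨low0, hl1, hl2⟩ := Nat.chineseRemainder (Nat.Coprime.pow j L hcop) f0 r1
    have hmodpos : 0 < k0 ^ j * k1 ^ L := by positivity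
    set low : ℕ := low0 % (k0 ^ j * k1 ^ L) with hlow
    have hlowlt : low < k0 ^ j * k1 ^ L := Nat.mod_lt _ hmodpos
    have hlow1 : low ≡ f0 [MOD k0 ^ j] :=
      (Nat.ModEq.of_dvd (dvd_mul_right _ _) (Nat.mod_modEq _ _)).trans hl1
    have hlow2 : low ≡ r1 [MOD k1 ^ L] :=
      (Nat.ModEq.of_dvd (dvd_mul_left _ _) (Nat.mod_modEq _ _)).trans hl2
    have hlowlt' : low < k t ^ s := by
      refine lt_of_lt_of_le hlowlt ?_
      have e1 : k t ^ s = k0 ^ j * (k0 ^ (k1 ^ μ t) * k1 ^ s) := by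
        rw [hkt, mul_pow]
        conv_lhs => rw [show k0 ^ s = k0 ^ j * k0 ^ (k1 ^ μ t) by rw [hs, pow_add]]
        ring
      rw [e1, hL, pow_add]
      apply Nat.mul_le_mul_left
      rw [mul_comm]
      apply Nat.mul_le_mul_right
      calc k1 ^ μ t ≤ 2 ^ (k1 ^ μ t) := Nat.lt_two_pow_self.le
        _ ≤ k0 ^ (k1 ^ μ t) := Nat.pow_le_pow_left hk02 _
    set v' : ℕ := low + k t ^ s * u t with hv'
    have hv'lt : v' < k t ^ L := by
      rw [hL, pow_add]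
      calc low + k t ^ s * u t < k t ^ s + k t ^ s * u t := by omega
        _ = k t ^ s * (u t + 1) := by ring
        _ ≤ _ := Nat.mul_le_mul_left _ (hu t)
    have hv'1 : k1 ^ L ∣ v' := by
      apply (Nat.modEq_zero_iff_dvd).1
      have h4 : v' ≡ r1 + k t ^ s * u t [MOD k1 ^ L] := hlow2.add_right _
      have h5 : r1 + k t ^ s * u t = k1 ^ L * (k t ^ s * u t) := by
        have : 1 ≤ k1 ^ L := Nat.one_le_pow _ _ hk1pos
        obtain ⟨y, hy⟩ : ∃ y, k1 ^ L = y + 1 := ⟨k1 ^ L - 1, by omega⟩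
        rw [hr1, hy]
        simp only [Nat.add_sub_cancel]
        ring
      rw [h5] at h4
      exact h4.trans (Nat.modEq_zero_iff_dvd.2 (dvd_mul_right _ _))
    have hv'0 : v' ≡ f0 [MOD k0 ^ j] := by
      have h4 : k t ^ s * u t ≡ 0 [MOD k0 ^ j] := by
        apply Nat.modEq_zero_iff_dvd.2
        apply Dvd.dvd.mul_right
        rw [hkt, mul_pow]
        apply Dvd.dvd.mul_right
        exact pow_dvd_pow _ (by omega)
      simpa using hlow1.add h4
    have hcop2 : Nat.Coprime (k0 ^ L) a1 := (Nat.Coprime.pow_right L h2).symm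
    obtain ⟨f1, hf1, hf2⟩ := Nat.chineseRemainder hcop2 v' f0
    have hjL : k0 ^ j ∣ k0 ^ L := pow_dvd_pow _ (by omega)
    have ha0L : a0 ∣ k0 ^ L := h3.trans hjL
    have hf0' : f1 ≡ f0 [MOD a0] :=
      (hf1.of_dvd ha0L).trans (hv'0.of_dvd h3)
    have hcop3 : Nat.Coprime a0 a1 :=
      Nat.Coprime.coprime_dvd_left h3 (Nat.Coprime.pow_left j h2.symm)
    have hfMo : f1 ≡ f0 [MOD Mo] := by
      rw [h1]
      exact (Nat.modEq_and_modEq_iff_modEq_mul hcop3).1 ⟨hf0', hf2⟩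
    have hModvd : Mo ∣ k0 ^ L * a1 := by
      rw [h1]
      exact Nat.mul_dvd_mul ha0L dvd_rfl
    refine ⟨k0 ^ L * a1, f1, Nat.succ_le_of_lt (by positivity), hdv.trans hModvd,
      (hfMo.of_dvd hdv).trans hfi, Function.update Λ t L, Function.update v t v', ?_⟩
    intro t' ht1
    rcases Finset.mem_insert.1 ht1 with rfl | ht'
    · simp only [Function.update_self]
      refine ⟨hv'lt, ⟨s, low, hlowlt', hL, hv'⟩, hv'1, dvd_mul_right _ _, hf1⟩
    · have hne : t' ≠ t := by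
        rintro rfl
        exact htS ht'
      rw [Function.update_of_ne hne, Function.update_of_ne hne]
      obtain ⟨g1, g2, g3, g4, g5⟩ := hS t' ht'
      exact ⟨g1, g2, g3, g4.trans hModvd, (hfMo.of_dvd g4).trans g5⟩

end Pool.Agent.W275.Hind
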