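import Pool.Agent.H672R2.Auto.Hat

set_option autoImplicit false

/-! Types of numbers with respect to a machine: bottom word and top word of minimal rank. -/

namespace Pool.Agent.W275.Hind

open Pool.Agent.H672R2.Auto Pool.Agent.H672R2.Auto.Mach

universe u v

variable {k : ℕ} {C : Type v}

/-- `a` has, in base `k`, at a position at least `s` a bottom word of rank at most `r` and a top
word of rank at most `r`. -/
def Ty (M : Mach.{u, v} k C) (p k1 r s a : ℕ) : Prop :=
  ∃ Λ v α ρ w l : ℕ, v < k ^ Λ ∧ Shape k Λ v 0 0 α ρ w a ∧ s ≤ α ∧ p ∣ α ∧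
    p ∣ (α + Λ + ρ) + l ∧ 0 < w ∧ w < k ^ l ∧ k1 ^ Λ ∣ v ∧ rk (M.T Λ v) ≤ r ∧ rk (M.T l w) ≤ r

/-- same kernel -/
def SK {Q : Type u} (A B : Q → Q) : Prop := ∀ q q', A q = A q' ↔ B q = B q'

/-- idempotent -/
def Idm {Q : Type u} (A : Q → Q) : Prop := ∀ q, A (A q) = A q

theorem SK.trans {Q : Type u} {A B D : Q → Q} (h : SK A B) (h' : SK B D) : SK A D :=
  fun q q' => (h q q').trans (h' q q')

theorem SK.symm {Q : Type u} {A B : Q → Q} (h : SK A B) : SK B A := fun q q' => (h q q').symm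

theorem idm_eq {Q : Type u} {A B : Q → Q} (hA : Idm A) (hB : Idm B) (hk : SK A B)
    (hr : Set.range A = Set.range B) : A = B := by
  funext q
  have h1 : A q ∈ Set.range B := by rw [← hr]; exact ⟨q, rfl⟩
  obtain ⟨q', hq'⟩ := h1
  have h2 : B (A q) = A q := by rw [← hq', hB]
  rw [← h2]
  exact (hk _ _).1 (hA q)

/-- the data attached to a factorisation -/
theorem key {M : Mach.{u, v} k C} {p r : ℕ} (h : M.IsPer p) (hr : ∀ l n, n < k ^ l → r ≤ rk (M.T l n))
    {Λ v α ρ w l a : ℕ} (hv : v < k ^ Λ) (hs : Shape k Λ v 0 0 α ρ w a) (hα : p ∣ α)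
    (hl : p ∣ (α + Λ + ρ) + l) (hw : w < k ^ l) (h1 : rk (M.T Λ v) ≤ r) (h2 : rk (M.T l w) ≤ r) :
    SK (M.hat p a) (fun q => M.T Λ v (M.T p 0 q)) ∧
      Set.range (M.hat p a) = Set.range (fun q => M.T p 0 (M.T l w q)) ∧
      rk (M.hat p a) ≤ rk (M.hat p a ∘ M.hat p a) := by
  have hmin' : ∀ A, IsT M A → r ≤ rk A := by
    rintro A ⟨l, n, hn, rfl⟩
    exact hr l n hn
  obtain ⟨F, hF⟩ := hat_factor h (u := 0) (μ := 0) (l := l) (by simp) hv hs hα (by simpa using hl) hw
  simp only [Nat.zero_add, pow_zero, one_mul] at hF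
  let Lo : M.Q → M.Q := fun q => M.T Λ v (M.T p 0 q)
  let Tp : M.Q → M.Q := fun q => M.T p 0 (M.T l w q)
  have hrLo : rk Lo ≤ r := le_trans (rk_comp_le_left (M.T Λ v) (M.T p 0)) h1
  have hrTp : rk Tp ≤ r := le_trans (rk_comp_le_right (M.T p 0) (M.T l w)) h2
  have hT := isT_hat h a
  have hge := hmin' _ hT
  have e1 : M.hat p a = (Tp ∘ F) ∘ Lo := by
    funext q; exact hF q
  refine ⟨?_, ?_, ?_⟩
  · have hinj : Set.InjOn (Tp ∘ F) (Set.range Lo) := by
      apply (Set.ncard_image_iff (Set.toFinite _)).1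
      apply le_antisymm (Set.ncard_image_le (Set.toFinite _))
      rw [← Set.range_comp, ← e1]
      exact le_trans hrLo hge
    intro q q'
    rw [e1]
    constructor
    · intro hq
      exact hinj ⟨q, rfl⟩ ⟨q', rfl⟩ hq
    · intro hq
      simp only [Function.comp]
      show Tp (F (Lo q)) = Tp (F (Lo q'))
      rw [show Lo q = Lo q' from hq]
  · apply Set.eq_of_subset_of_ncard_le _ _ (Set.toFinite _)
    · rintro _ ⟨q, rfl⟩
      exact ⟨_, (hF q).symm⟩
    · exact le_trans hrTp hge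
  · calc rk (M.hat p a) ≤ rk Lo := by rw [e1]; exact rk_comp_le_right _ _
      _ ≤ r := hrLo
      _ ≤ _ := hmin' _ (hT.comp hT)

theorem Ty.stable {M : Mach.{u, v} k C} {p k1 r s a : ℕ} (h : M.IsPer p)
    (hr : ∀ l n, n < k ^ l → r ≤ rk (M.T l n)) (ha : Ty M p k1 r s a) :
    rk (M.hat p a) ≤ rk (M.hat p a ∘ M.hat p a) := by
  obtain ⟨Λ, v, α, ρ, w, l, h1, h2, h3, h4, h5, h6, h7, h8, h9, h10⟩ := ha
  exact (key h hr h1 h2 h4 h5 h7 h9 h10).2.2

/-- iterating a stable map a factorial number of times gives an idempotent with the same kernel and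
the same image -/
theorem iter_idm {Q : Type u} [Finite Q] {F : Q → Q} (hF : rk F ≤ rk (F ∘ F)) {N : ℕ}
    (hN : (Nat.card Q).factorial ∣ N) (hN0 : 0 < N) :
    Idm F^[N] ∧ SK F^[N] F ∧ Set.range F^[N] = Set.range F := by
  classical
  have hsub : Set.range (F ∘ F) ⊆ Set.range F := by
    rintro _ ⟨q, rfl⟩
    exact ⟨F q, rfl⟩
  have heq : Set.range (F ∘ F) = Set.range F :=
    Set.eq_of_subset_of_ncard_le hsub hF (Set.toFinite _)
  let R := Set.range F
  have hmap : ∀ y : R, F y.1 ∈ R := fun y => ⟨y.1, rfl⟩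
  let g : R → R := fun y => ⟨F y.1, hmap y⟩
  have hsurj : Function.Surjective g := by
    rintro ⟨y, hy⟩
    have : y ∈ Set.range (F ∘ F) := by rw [heq]; exact hy
    obtain ⟨q, hq⟩ := this
    exact ⟨⟨F q, q, rfl⟩, Subtype.ext hq⟩
  have hbij : Function.Bijective g := Finite.surjective_iff_bijective.1 hsurj
  let σ : Equiv.Perm R := Equiv.ofBijective g hbij
  have : Fintype R := Fintype.ofFinite R
  have hcard : Fintype.card (Equiv.Perm R) ∣ N := by
    rw [Fintype.card_perm]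
    refine dvd_trans (Nat.factorial_dvd_factorial ?_) hN
    rw [← Nat.card_eq_fintype_card]
    exact Nat.card_le_card_of_injective (Subtype.val : R → Q) Subtype.val_injective
  have hσ : σ ^ N = 1 := by
    obtain ⟨c, rfl⟩ := hcard
    rw [pow_mul, pow_card_eq_one, one_pow]
  have hiter : ∀ (n : ℕ) (y : R), ((σ ^ n) y).1 = F^[n] y.1 := by
    intro n
    induction n with
    | zero => intro y; simp
    | succ n ih =>
      intro y
      rw [pow_succ, Equiv.Perm.mul_apply, ih, Function.iterate_succ_apply]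
      rfl
  have hfix : ∀ y ∈ Set.range F, F^[N] y = y := by
    intro y hy
    have := hiter N ⟨y, hy⟩
    rw [hσ] at this
    exact this.symm
  have hFinj : ∀ y ∈ Set.range F, ∀ y' ∈ Set.range F, F y = F y' → y = y' := by
    intro y hy y' hy' hyy
    have := hbij.1 (a₁ := ⟨y, hy⟩) (a₂ := ⟨y', hy'⟩) (Subtype.ext hyy)
    exact congrArg Subtype.val this
  obtain ⟨n, rfl⟩ : ∃ n, N = n + 1 := ⟨N - 1, by omega⟩
  have hmem : ∀ n q, F^[n + 1] q ∈ Set.range F := fun n q =>
    ⟨F^[n] q, by rw [Function.iterate_succ_apply']⟩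
  refine ⟨fun q => hfix _ (hmem n q), ?_, ?_⟩
  · intro q q'
    constructor
    · intro hq
      have hinj : ∀ m, F^[m + 1] q = F^[m + 1] q' → F q = F q' := by
        intro m
        induction m with
        | zero => simp
        | succ m ih =>
          intro hm
          apply ih
          rw [Function.iterate_succ_apply', Function.iterate_succ_apply' F (m + 1)] at hm
          exact hFinj _ (hmem m q) _ (hmem m q') hm
      exact hinj n hq
    · intro hq
      rw [Function.iterate_succ_apply, Function.iterate_succ_apply, hq]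
  · apply Set.Subset.antisymm
    · rintro _ ⟨q, rfl⟩
      exact hmem n q
    · intro y hy
      exact ⟨y, hfix y hy⟩

/-- products with numbers close to a unit -/
theorem Ty.mul {M : Mach.{u, v} k C} {p k0 k1 r s : ℕ} (h : M.IsPer p)
    (hr : ∀ l n, n < k ^ l → r ≤ rk (M.T l n)) (hk01 : k = k0 * k1) (hcop : Nat.Coprime k0 k1)
    {a : ℕ} (ha : Ty M p k1 r s a) :
    ∃ L : ℕ, ∀ X b σ β b' g : ℕ, a < X → p ∣ σ → b = k ^ σ * b' → 0 < b →
      b' ≡ 1 [MOD k0 ^ L] → k1 ^ L ∣ b' → k ^ (p * β) ≤ b → b * X ≤ k ^ (p * β) * (X + 1) →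
      g ≤ σ →
      Ty M p k1 r (s + g) (a * b) ∧ SK (M.hat p (a * b)) (M.hat p a) ∧
        Set.range (M.hat p (a * b)) = Set.range (M.hat p a) := by
  have hk := h.base
  obtain ⟨Λ, v, α, ρ, w, l, h1, h2, h3, h4, h5, h6, h7, h8, h9, h10⟩ := ha
  refine ⟨Λ, fun X b σ β b' g hX hσ hb hb0 hb1 hb2 hβ hβX hg => ?_⟩
  have hk1pos : 0 < k1 := by
    rcases Nat.eq_zero_or_pos k1 with h | h
    · subst h; simp at hk01; omega
    · exact h
  have hkpos : 0 < k := by omega
  -- the exponents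
  have hσβ : σ ≤ p * β := by
    by_contra hcon
    have h11 : p * β + 1 ≤ σ := by omega
    have h12 : k ^ (p * β + 1) ≤ b := by
      have h13 : k ^ σ ≤ b := by
        rw [hb]
        apply Nat.le_mul_of_pos_right
        rcases Nat.eq_zero_or_pos b' with h | h
        · subst h; simp at hb; omega
        · exact h
      exact le_trans (Nat.pow_le_pow_right hkpos h11) h13
    have hX1 : 1 ≤ X := by omega
    have hpp : 0 < k ^ (p * β) := by positivity
    have h14 : k ^ (p * β) * k * X ≤ k ^ (p * β) * (X + 1) := by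
      rw [← pow_succ]
      exact le_trans (Nat.mul_le_mul_right _ h12) hβX
    rw [mul_assoc] at h14
    have h15 := Nat.le_of_mul_le_mul_left h14 hpp
    have hX2 : X = 1 := by nlinarith
    -- then a = 0
    have ha0 : a = 0 := by omega
    have h16 := h2.top1
    simp only [pow_zero, one_mul, Nat.zero_add, ha0] at h16
    have : 0 < k ^ (α + Λ + ρ) * w := by positivity
    omega
  have hρ' : (α + σ) + Λ + (ρ + (p * β - σ)) = (α + Λ + ρ) + p * β := by omega
  have hS : Shape k Λ v 0 0 (α + σ) (ρ + (p * β - σ)) w (a * b) := by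
    obtain ⟨x, hx⟩ := h2.low
    refine ⟨?_, ?_, ?_⟩
    · -- the bottom
      have hmod : (v + k ^ Λ * x) * b' ≡ v [MOD k ^ Λ] := by
        have e1 : (v + k ^ Λ * x) * b' ≡ v * b' [MOD k ^ Λ] := by
          have : (v + k ^ Λ * x) * b' = v * b' + k ^ Λ * (x * b') := by ring
          rw [this]
          exact (Nat.modEq_zero_iff_dvd.2 (dvd_mul_right _ _)).add_left _ |>.trans (by simp [Nat.ModEq.refl])
        refine e1.trans ?_
        rw [hk01, mul_pow]
        apply (Nat.modEq_and_modEq_iff_modEq_mul (Nat.Coprime.pow _ _ hcop)).1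
        constructor
        · simpa using hb1.mul_left v
        · exact (Nat.modEq_zero_iff_dvd.2 (Dvd.dvd.mul_left hb2 _)).trans
            (Nat.modEq_zero_iff_dvd.2 h8).symm
      have hle : v ≤ (v + k ^ Λ * x) * b' := by
        have hb'0 : 0 < b' := by
          rcases Nat.eq_zero_or_pos b' with h | h
          · subst h; simp at hb; omega
          · exact h
        calc v ≤ v + k ^ Λ * x := Nat.le_add_right _ _
          _ ≤ _ := Nat.le_mul_of_pos_right _ hb'0
      obtain ⟨y, hy⟩ := (Nat.modEq_iff_dvd' hle).1 hmod.symm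
      refine ⟨y, ?_⟩
      have : (v + k ^ Λ * x) * b' = v + k ^ Λ * y := by omega
      calc a * b = k ^ α * k ^ σ * ((v + k ^ Λ * x) * b') := by rw [hx, hb]; ring
        _ = _ := by rw [this, pow_add]
    · have h11 := h2.top1
      simp only [pow_zero, one_mul, Nat.zero_add] at h11 ⊢
      rw [hρ', pow_add]
      calc k ^ (α + Λ + ρ) * k ^ (p * β) * w = (k ^ (α + Λ + ρ) * w) * k ^ (p * β) := by ring
        _ ≤ a * b := Nat.mul_le_mul h11 hβ
    · have h11 := h2.top2
      simp only [pow_zero, one_mul, Nat.zero_add] at h11 ⊢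
      rw [hρ', pow_add]
      have h12 : a + 1 ≤ k ^ (α + Λ + ρ) * (w + 1) := h11
      have h13 : k ^ (p * β) * (a + 1) ≤ k ^ (α + Λ + ρ) * k ^ (p * β) * (w + 1) := by
        calc k ^ (p * β) * (a + 1) ≤ k ^ (p * β) * (k ^ (α + Λ + ρ) * (w + 1)) :=
              Nat.mul_le_mul_left _ h12
          _ = _ := by ring
      refine lt_of_lt_of_le ?_ h13
      -- a * b < k^(pβ) (a+1)
      have hX0 : 0 < X := by omega
      have hpp : 0 < k ^ (p * β) := by positivity
      apply Nat.lt_of_mul_lt_mul_right (a := X)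
      calc a * b * X = a * (b * X) := by ring
        _ ≤ a * (k ^ (p * β) * (X + 1)) := Nat.mul_le_mul_left _ hβX
        _ = k ^ (p * β) * (a * X + a) := by ring
        _ < k ^ (p * β) * (a * X + X) := by
            apply Nat.mul_lt_mul_of_pos_left _ hpp
            omega
        _ = _ := by ring
  have hα' : p ∣ α + σ := dvd_add h4 hσ
  have hl' : p ∣ ((α + σ) + Λ + (ρ + (p * β - σ))) + l := by
    rw [hρ']
    have : (α + Λ + ρ) + p * β + l = ((α + Λ + ρ) + l) + p * β := by ring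
    rw [this]
    exact dvd_add h5 (dvd_mul_right _ _)
  obtain ⟨a1, a2, _⟩ := key h hr h1 h2 h4 h5 h7 h9 h10
  obtain ⟨b1, b2, _⟩ := key h hr h1 hS hα' hl' h7 h9 h10
  exact ⟨⟨Λ, v, α + σ, ρ + (p * β - σ), w, l, h1, hS, by omega, hα', hl', h6, h7, h8, h9, h10⟩,
    b1.trans a1.symm, b2.trans a2.symm⟩

theorem Ty.dvd {M : Mach.{u, v} k C} {p k1 r s a : ℕ} (ha : Ty M p k1 r s a) : k ^ s ∣ a := by
  obtain ⟨Λ, v, α, ρ, w, l, h1, h2, h3, h4, h5, h6, h7, h8, h9, h10⟩ := ha
  obtain ⟨x, hx⟩ := h2.low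
  rw [hx]
  exact Dvd.dvd.mul_right (pow_dvd_pow _ h3) _

theorem Ty.mono {M : Mach.{u, v} k C} {p k1 r s s' a : ℕ} (ha : Ty M p k1 r s a) (hs : s' ≤ s) :
    Ty M p k1 r s' a := by
  obtain ⟨Λ, v, α, ρ, w, l, h1, h2, h3, h4, h5, h6, h7, h8, h9, h10⟩ := ha
  exact ⟨Λ, v, α, ρ, w, l, h1, h2, hs.trans h3, h4, h5, h6, h7, h8, h9, h10⟩

theorem Ty.pos {M : Mach.{u, v} k C} {p k1 r s a : ℕ} (hk : 2 ≤ k) (ha : Ty M p k1 r s a) :
    0 < a := by
  obtain ⟨Λ, v, α, ρ, w, l, h1, h2, h3, h4, h5, h6, h7, h8, h9, h10⟩ := ha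
  have h11 := h2.top1
  simp only [pow_zero, one_mul, Nat.zero_add] at h11
  have : 0 < k ^ (α + Λ + ρ) * w := by positivity
  omega

/-- sums of numbers living in separate ranges of digits -/
theorem Ty.add {M : Mach.{u, v} k C} {p k1 r s : ℕ} (h : M.IsPer p)
    (hr : ∀ l n, n < k ^ l → r ≤ rk (M.T l n)) {a b i j : ℕ} (ha : Ty M p k1 r s a)
    (haj : a < k ^ (p * j)) (hij : j < i) (hb : Ty M p k1 r (p * i) b) :
    Ty M p k1 r s (a + b) ∧ SK (M.hat p (a + b)) (M.hat p a) ∧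
      Set.range (M.hat p (a + b)) = Set.range (M.hat p b) ∧
      ∀ q, M.hat p (a + b) q = M.hat p b (M.hat p a q) := by
  have hk := h.base
  have hkpos : 0 < k := by omega
  have hp := h.pos
  have hb' := hb
  have ha' := ha
  obtain ⟨b0, hb0⟩ := hb.dvd
  obtain ⟨Λ, v, α, ρ, w, l, h1, h2, h3, h4, h5, h6, h7, h8, h9, h10⟩ := ha
  obtain ⟨Λ', v', α', ρ', w', l', g1, g2, g3, g4, g5, g6, g7, g8, g9, g10⟩ := hb
  have e1 := h2.top1
  simp only [pow_zero, one_mul, Nat.zero_add] at e1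
  have f1 := g2.top1
  have f2 := g2.top2
  simp only [pow_zero, one_mul, Nat.zero_add] at f1 f2
  have hθ : α + Λ + ρ < p * j := by
    have h11 : k ^ (α + Λ + ρ) < k ^ (p * j) := by
      refine lt_of_le_of_lt ?_ haj
      exact le_trans (Nat.le_mul_of_pos_right _ h6) e1
    exact (Nat.pow_lt_pow_iff_right (by omega)).1 h11
  have hji : p * j + 1 ≤ p * i := by
    have : p * j + p ≤ p * i := by
      calc p * j + p = p * (j + 1) := by ring
        _ ≤ _ := Nat.mul_le_mul_left _ hij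
    omega
  have hθ' : p * i ≤ α' + Λ' + ρ' := by omega
  -- the new shape
  obtain ⟨x, hx⟩ := h2.low
  obtain ⟨D, hD⟩ : ∃ D, α' + Λ' + ρ' = (α + Λ) + D := ⟨α' + Λ' + ρ' - (α + Λ), by omega⟩
  have hS : Shape k Λ v 0 0 α D w' (a + b) := by
    refine ⟨?_, ?_, ?_⟩
    · obtain ⟨E, hE⟩ : ∃ E, p * i = α + Λ + E := ⟨p * i - (α + Λ), by omega⟩
      refine ⟨x + k ^ E * b0, ?_⟩
      rw [hb0, hE, hx, pow_add, pow_add]
      ring
    · simp only [pow_zero, one_mul, Nat.zero_add]
      rw [← hD]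
      exact le_trans f1 (Nat.le_add_left _ _)
    · simp only [pow_zero, one_mul, Nat.zero_add]
      rw [← hD]
      obtain ⟨E, hE⟩ : ∃ E, α' + Λ' + ρ' = p * i + E := ⟨α' + Λ' + ρ' - p * i, by omega⟩
      have f3 : b0 + 1 ≤ k ^ E * (w' + 1) := by
        have f4 : k ^ (p * i) * b0 < k ^ (p * i) * (k ^ E * (w' + 1)) := by
          rw [← hb0, ← mul_assoc, ← pow_add, ← hE]
          exact f2
        exact Nat.lt_of_mul_lt_mul_left f4
      have haj' : a < k ^ (p * i) := lt_of_lt_of_le haj (Nat.pow_le_pow_right hkpos (by omega))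
      calc a + b < k ^ (p * i) + b := by omega
        _ = k ^ (p * i) * (b0 + 1) := by rw [hb0]; ring
        _ ≤ k ^ (p * i) * (k ^ E * (w' + 1)) := Nat.mul_le_mul_left _ f3
        _ = k ^ (α' + Λ' + ρ') * (w' + 1) := by rw [hE, pow_add]; ring
  have hlD : p ∣ (α + Λ + D) + l' := by
    rw [← hD]; exact g5
  obtain ⟨a1, a2, _⟩ := key h hr h1 h2 h4 h5 h7 h9 h10
  obtain ⟨b1, b2, _⟩ := key h hr g1 g2 g4 g5 g7 g9 g10
  obtain ⟨c1, c2, _⟩ := key h hr h1 hS h4 hlD g7 h9 g10
  refine ⟨⟨Λ, v, α, D, w', l', h1, hS, h3, h4, hlD, g6, g7, h8, h9, g10⟩, c1.trans a1.symm,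
    c2.trans b2.symm, fun q => ?_⟩
  have hb2 : ∀ q, M.hat p b q = M.hat p b0 (M.T p 0 q) := by
    intro q
    have := hat_add h (x := 0) (i := i) (j := 0) (by simp) (by omega) b0 q
    rw [Nat.zero_add, ← hb0, hat_zero h] at this
    exact this
  rw [hb0, hat_add h haj hij, ← hb0, hb2, E_hat h]

end Pool.Agent.W275.Hind
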