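import Pool.Agent.H672R2.Auto.Main
import Pool.Agent.W275.Hind.Ty
import Pool.Agent.W275.Hind.Nest

set_option autoImplicit false

/-! Blocks: numbers which are close to units in every base and have words of minimal rank. -/

namespace Pool.Agent.W275.Hind

open Pool.Agent.H672R2.Auto Pool.Agent.H672R2.Auto.Mach

universe u v

theorem block {m : ℕ} {C : Type v} (k : Fin m → ℕ) (hk : ∀ t, 2 ≤ k t) {K : ℕ} (hK2 : 2 ≤ K)
    (D : ∀ t, Dec K (k t)) (M : ∀ t, Mach.{u, v} (k t) C) (p : Fin m → ℕ)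
    (hper : ∀ t, (M t).IsPer (p t)) (μ u : Fin m → ℕ) (hu : ∀ t, u t < k t ^ μ t)
    (X L G : ℕ) (hX : 1 ≤ X) :
    ∃ b : ℕ, G < b ∧ ∀ t, Ty (M t) (p t) (D t).k1 (rk ((M t).T (μ t) (u t))) (p t * G) b ∧
      ∃ σ β b' : ℕ, p t ∣ σ ∧ p t * G ≤ σ ∧ b = k t ^ σ * b' ∧ b' ≡ 1 [MOD (D t).k0 ^ L] ∧
        (D t).k1 ^ L ∣ b' ∧ k t ^ (p t * β) ≤ b ∧ b * X ≤ k t ^ (p t * β) * (X + 1) := by
  classical
  have hp1 : ∀ t, 1 ≤ p t := fun t => (hper t).pos
  -- names for the arithmetic data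
  let zz : Fin m → ℕ := fun t => (D t).z
  let cc : Fin m → ℕ := fun t => (D t).g
  let k0 : Fin m → ℕ := fun t => (D t).k0
  let k1 : Fin m → ℕ := fun t => (D t).k1
  let jj : Fin m → ℕ := fun t => (D t).j
  have hzz : ∀ t, 1 ≤ zz t := fun t => (D t).hz
  have hK : ∀ t, K = k t ^ zz t * cc t := fun t => (D t).hK
  have hk01 : ∀ t, k t = k0 t * k1 t := fun t => (D t).hk
  have hcc : ∀ t, Nat.Coprime (cc t) (k0 t) := fun t => (D t).hg0
  have h1g : ∀ t, k1 t ∣ cc t ^ jj t := fun t => (D t).h1g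
  have hk02 : ∀ t, 2 ≤ k0 t := fun t => (D t).hk0
  have hcop01 : ∀ t, Nat.Coprime (k0 t) (k1 t) := fun t => (D t).cop
  set Mi : ℕ := ∏ t, k0 t ^ L with hMi
  have hMi1 : 1 ≤ Mi := Nat.succ_le_of_lt (Finset.prod_pos fun t _ =>
    pow_pos (by have := hk02 t; omega) _)
  obtain ⟨Mo, f0, hMo1, hMiMo, hf01, LL, vv, hnc⟩ := nested_cong' k D μ u hu Mi 1 hMi1
  have hvlt : ∀ t, vv t < k t ^ LL t := fun t => (hnc t).1
  have hv1 : ∀ t, k1 t ^ LL t ∣ vv t := fun t => (hnc t).2.2.1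
  have hMoD : ∀ t, k0 t ^ LL t ∣ Mo := fun t => (hnc t).2.2.2.1
  have hf0 : ∀ t, f0 ≡ vv t [MOD k0 t ^ LL t] := fun t => (hnc t).2.2.2.2
  have hrv : ∀ t, rk ((M t).T (LL t) (vv t)) ≤ rk ((M t).T (μ t) (u t)) := by
    intro t
    obtain ⟨s', low, h1, h2, h3⟩ := (hnc t).2.1
    have e : (M t).T (LL t) (vv t) = (M t).T (μ t) (u t) ∘ (M t).T s' low := by
      funext q
      rw [h2, h3, Function.comp]
      exact (M t).comp _ _ _ _ h1 (hu t) q
    rw [e]
    exact rk_comp_le_left _ _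
  have hMiD : ∀ t, k0 t ^ L ∣ Mi := fun t =>
    Finset.dvd_prod_of_mem (fun t => k0 t ^ L) (Finset.mem_univ t)
  -- exponents
  set B : ℕ := ∏ t, (p t * (Nat.totient (k0 t ^ LL t) * Nat.totient (k0 t ^ L)) *
    (jj t * (LL t + L) + 1)) with hBdef
  have hB1 : 1 ≤ B := by
    apply Nat.one_le_iff_ne_zero.2
    apply Finset.prod_ne_zero_iff.2
    intro t _
    have h1 := hp1 t
    have h2 : 0 < Nat.totient (k0 t ^ LL t) :=
      Nat.totient_pos.2 (pow_pos (by have := hk02 t; omega) _)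
    have h3 : 0 < Nat.totient (k0 t ^ L) :=
      Nat.totient_pos.2 (pow_pos (by have := hk02 t; omega) _)
    positivity
  have hBt : ∀ t, p t * (Nat.totient (k0 t ^ LL t) * Nat.totient (k0 t ^ L)) *
    (jj t * (LL t + L) + 1) ∣ B := fun t =>
    Finset.dvd_prod_of_mem _ (Finset.mem_univ t)
  have hBp : ∀ t, p t ∣ B := fun t =>
    dvd_trans (dvd_trans (dvd_mul_right _ _) (dvd_mul_right _ _)) (hBt t)
  have hBj : ∀ t, jj t * (LL t + L) ≤ B := fun t => by
    have h1 := Nat.le_of_dvd hB1 (dvd_trans (dvd_mul_left _ _) (hBt t))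
    omega
  set e : ℕ := B * (G + 1) with he
  have hBe : B ≤ e := Nat.le_mul_of_pos_right _ (by omega)
  have hunit : ∀ t, cc t ^ e ≡ 1 [MOD k0 t ^ LL t] := by
    intro t
    obtain ⟨b, hb⟩ := dvd_trans (dvd_trans (dvd_mul_left _ _) (dvd_mul_right _ _)) (hBt t)
    have h1 : cc t ^ Nat.totient (k0 t ^ LL t) ≡ 1 [MOD k0 t ^ LL t] :=
      Nat.ModEq.pow_totient (Nat.Coprime.pow_right _ (hcc t))
    have h2 := h1.pow (Nat.totient (k0 t ^ L) * b * (G + 1))
    rw [one_pow, ← pow_mul] at h2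
    have h3 : Nat.totient (k0 t ^ LL t) * (Nat.totient (k0 t ^ L) * b * (G + 1)) = e := by
      rw [he, hb]; ring
    rwa [h3] at h2
  have hunit' : ∀ t, cc t ^ e ≡ 1 [MOD k0 t ^ L] := by
    intro t
    obtain ⟨b, hb⟩ := dvd_trans (dvd_trans (dvd_mul_left _ _) (dvd_mul_right _ _)) (hBt t)
    have h1 : cc t ^ Nat.totient (k0 t ^ L) ≡ 1 [MOD k0 t ^ L] :=
      Nat.ModEq.pow_totient (Nat.Coprime.pow_right _ (hcc t))
    have h2 := h1.pow (Nat.totient (k0 t ^ LL t) * b * (G + 1))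
    rw [one_pow, ← pow_mul] at h2
    have h3 : Nat.totient (k0 t ^ L) * (Nat.totient (k0 t ^ LL t) * b * (G + 1)) = e := by
      rw [he, hb]; ring
    rwa [h3] at h2
  have hdivg : ∀ t, k1 t ^ (LL t + L) ∣ cc t ^ e := by
    intro t
    have h1 : k1 t ^ (LL t + L) ∣ cc t ^ (jj t * (LL t + L)) := by
      rw [pow_mul]
      exact pow_dvd_pow_of_dvd (h1g t) _
    exact dvd_trans h1 (pow_dvd_pow _ ((hBj t).trans hBe))
  have hKe : ∀ t, K ^ e = k t ^ (zz t * e) * cc t ^ e := by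
    intro t
    rw [pow_mul (k t), ← mul_pow, ← hK t]
  -- real data
  have hXr : (1 : ℝ) ≤ X := by exact_mod_cast hX
  set η : ℝ := 1 / (16 * X) with hη
  have hη0 : 0 < η := by positivity
  have hηX : η * X = 1 / 16 := by rw [hη]; field_simp
  have hη1 : η ≤ 1 / 16 := by nlinarith
  obtain ⟨δ, hδ, hδ1, hnest⟩ := nested' Finset.univ k μ u (fun t _ => hk t) (fun t _ => hu t)
    hη0 (by linarith)
  set H : ℕ := ∑ t, (zz t * e + LL t) with hH
  have hHt : ∀ t, zz t * e + LL t ≤ H := fun t =>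
    Finset.single_le_sum (f := fun t => zz t * e + LL t) (fun _ _ => Nat.zero_le _)
      (Finset.mem_univ t)
  obtain ⟨A0, hA0, hA⟩ := hnest H
  have hKpos : (0 : ℝ) < K := by exact_mod_cast (by omega : 0 < K)
  set cr : ℝ := (K : ℝ) ^ e with hcr
  have hcr0 : 0 < cr := by positivity
  obtain ⟨γ, hγG, hγ⟩ := close_powers k p hk hp1 hK2 hη0 ⌈max A0 (cr * f0 + 2 * (cr * Mo) / δ)⌉₊
  choose β hβ1 hβ2 using hγ
  have hKr : (2 : ℝ) ≤ K := by exact_mod_cast hK2
  have hKγ : max A0 (cr * f0 + 2 * (cr * Mo) / δ) ≤ (K : ℝ) ^ γ := by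
    have h0 : max A0 (cr * f0 + 2 * (cr * Mo) / δ) ≤ (γ : ℝ) :=
      le_trans (Nat.le_ceil _) (by exact_mod_cast hγG)
    have h1 : γ < 2 ^ γ := Nat.lt_two_pow_self
    have h2 : (γ : ℝ) ≤ 2 ^ γ := by exact_mod_cast h1.le
    have h3 : (2 : ℝ) ^ γ ≤ (K : ℝ) ^ γ := pow_le_pow_left₀ (by norm_num) hKr _
    linarith
  have hKγ0 : 0 < (K : ℝ) ^ γ := by positivity
  have hAge : (K : ℝ) ^ γ ≤ (K : ℝ) ^ γ * (1 + 2 * η) := by nlinarith
  obtain ⟨A', hAA', hup, hgood⟩ := hA ((K : ℝ) ^ γ * (1 + 2 * η))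
    (le_trans (le_trans (le_max_left _ _) hKγ) hAge)
  have hA'big : cr * f0 + 2 * (cr * Mo) / δ ≤ A' :=
    le_trans (le_trans (le_max_right _ _) hKγ) (le_trans hAge hAA')
  have hA'0 : 0 < A' := lt_of_lt_of_le (by positivity) hAA'
  have hpos1 : 0 ≤ cr * (f0 : ℝ) := by positivity
  have hpos2 : 0 ≤ 2 * (cr * Mo) / δ := by positivity
  obtain ⟨f, hf1, hf2, hf3⟩ := exists_mult (f0 := f0) hMo1 hcr0
    (B := A') (len := A' * (δ / 2)) (by linarith)
    (by
      have h1 : 2 * (cr * Mo) / δ ≤ A' := by linarith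
      rw [div_le_iff₀ hδ] at h1
      linarith)
  have hfpos : 0 < f := by
    by_contra h
    have : f = 0 := by omega
    subst this
    simp only [Nat.cast_zero, mul_zero] at hf2
    linarith
  have hbr : ((f * K ^ e : ℕ) : ℝ) = cr * f := by push_cast; rw [hcr]; ring
  have hAδ : 0 < A' * δ := by positivity
  have hGb : G < f * K ^ e := by
    have h1 : G < e := by
      have : G + 1 ≤ e := Nat.le_mul_of_pos_left _ hB1
      omega
    have h2 : e < 2 ^ e := Nat.lt_two_pow_self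
    have h3 : 2 ^ e ≤ K ^ e := Nat.pow_le_pow_left hK2 e
    have h4 : K ^ e ≤ f * K ^ e := Nat.le_mul_of_pos_left _ hfpos
    omega
  refine ⟨f * K ^ e, hGb, fun t => ?_⟩
  have hbe : f * K ^ e = k t ^ (zz t * e) * (f * cc t ^ e) := by rw [hKe t]; ring
  have hpze : p t ∣ zz t * e := Dvd.dvd.mul_left (Dvd.dvd.mul_right (hBp t) _) _
  have hGze : p t * G ≤ zz t * e := by
    have h1 : p t ≤ B := Nat.le_of_dvd hB1 (hBp t)
    calc p t * G ≤ B * (G + 1) := Nat.mul_le_mul h1 (by omega)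
      _ = e := rfl
      _ ≤ zz t * e := Nat.le_mul_of_pos_left _ (hzz t)
  constructor
  · -- the type
    obtain ⟨θ, w, hθ, hw0, hw1, hw2⟩ := hgood t (Finset.mem_univ t)
    have hHt' := hHt t
    set W : ℕ := u t + k t ^ μ t * w with hW
    have hcong : f * cc t ^ e ≡ vv t [MOD k t ^ LL t] := by
      rw [hk01 t, mul_pow]
      apply (Nat.modEq_and_modEq_iff_modEq_mul (Nat.Coprime.pow _ _ (hcop01 t))).1
      constructor
      · have h1 : f ≡ vv t [MOD k0 t ^ LL t] := (hf1.of_dvd (hMoD t)).trans (hf0 t)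
        simpa using h1.mul (hunit t)
      · have h1 : f * cc t ^ e ≡ 0 [MOD k1 t ^ LL t] :=
          Nat.modEq_zero_iff_dvd.2 (Dvd.dvd.mul_left
            ((pow_dvd_pow _ (Nat.le_add_right _ _)).trans (hdivg t)) _)
        exact h1.trans (Nat.modEq_zero_iff_dvd.2 (hv1 t)).symm
    have hS : Shape (k t) (LL t) (vv t) 0 0 (zz t * e) (θ - zz t * e - LL t) W
        (k t ^ (zz t * e) * (f * cc t ^ e)) := by
      refine shape_of (k := k t) (Λ := LL t) (v := vv t) (μ := 0) (u := 0) (α := zz t * e)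
        (θ := θ) (w := W) (a' := f * cc t ^ e) (q := 0) (e := 0) (hk t) (hvlt t)
        (ξ := cr * f) (A := A') (δ := δ) hcong ?_ hf2 ?_ ?_ ?_ (by omega)
      · rw [← hbe, hbr]
        simp
      · nlinarith
      · simpa using hw1
      · simpa using hw2
    -- the length of the top word
    obtain ⟨l', hl', hwl⟩ : ∃ l', p t ∣ θ + (μ t + l') ∧ w < k t ^ l' := by
      set s := θ + μ t with hs
      have hkt := hk t
      refine ⟨p t * (w + s + 1) - s, ?_, ?_⟩
      · have : s ≤ p t * (w + s + 1) := by have := hp1 t; nlinarith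
        rw [show θ + (μ t + (p t * (w + s + 1) - s)) = p t * (w + s + 1) by omega]
        exact dvd_mul_right _ _
      · have h0 : w + s + 1 ≤ p t * (w + s + 1) := Nat.le_mul_of_pos_left _ (hp1 t)
        have h1 : w < 2 ^ w := Nat.lt_two_pow_self
        have h2 : 2 ^ w ≤ k t ^ w := Nat.pow_le_pow_left hkt w
        have h3 : k t ^ w ≤ k t ^ (p t * (w + s + 1) - s) :=
          Nat.pow_le_pow_right (by omega) (by omega)
        omega
    have hkt0 : 0 < k t := by have := hk t; omega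
    have hWlt : W < k t ^ (μ t + l') := by
      rw [pow_add, hW]
      calc u t + k t ^ μ t * w < k t ^ μ t + k t ^ μ t * w := by have := hu t; omega
        _ = k t ^ μ t * (w + 1) := by ring
        _ ≤ _ := Nat.mul_le_mul_left _ hwl
    have hrW : rk ((M t).T (μ t + l') W) ≤ rk ((M t).T (μ t) (u t)) := by
      have e1 : (M t).T (μ t + l') W = (M t).T l' w ∘ (M t).T (μ t) (u t) := by
        funext q
        rw [Function.comp]
        exact (M t).comp _ _ _ _ (hu t) hwl q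
      rw [e1]
      exact rk_comp_le_right _ _
    have hWpos : 0 < W := by
      have : 0 < k t ^ μ t * w := by positivity
      omega
    refine ⟨LL t, vv t, zz t * e, θ - zz t * e - LL t, W, μ t + l', hvlt t, ?_, hGze, hpze, ?_,
      hWpos, hWlt, hv1 t, hrv t, hrW⟩
    · rw [hbe]; exact hS
    · rw [show zz t * e + LL t + (θ - zz t * e - LL t) = θ by omega]
      exact hl'
  · -- closeness to a unit
    refine ⟨zz t * e, β t, f * cc t ^ e, hpze, hGze, hbe, ?_, ?_, ?_, ?_⟩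
    · have h1 : f ≡ 1 [MOD k0 t ^ L] :=
        ((hf1.of_dvd hMiMo).trans hf01).of_dvd (hMiD t)
      simpa using h1.mul (hunit' t)
    · exact Dvd.dvd.mul_left ((pow_dvd_pow _ (Nat.le_add_left _ _)).trans (hdivg t)) _
    · have h1 : (k t : ℝ) ^ (p t * β t) ≤ cr * f := by
        have h2 : (K : ℝ) ^ γ * (1 + 2 * η) ≤ cr * f := le_trans hAA' hf2
        have h3 := mul_le_mul_of_nonneg_right (hβ1 t) (show (0 : ℝ) ≤ 1 + 2 * η by positivity)
        have h4 : (0 : ℝ) ≤ (k t : ℝ) ^ (p t * β t) := by positivity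
        have h5 : 1 ≤ (1 - η) * (1 + 2 * η) := by nlinarith
        have h6 : (k t : ℝ) ^ (p t * β t) ≤ (k t : ℝ) ^ (p t * β t) * ((1 - η) * (1 + 2 * η)) :=
          le_mul_of_one_le_right h4 h5
        have h7 : (k t : ℝ) ^ (p t * β t) * ((1 - η) * (1 + 2 * η)) =
          (1 - η) * (k t : ℝ) ^ (p t * β t) * (1 + 2 * η) := by ring
        linarith
      rw [← hbr] at h1
      exact_mod_cast h1
    · have h1 : cr * f * X ≤ (k t : ℝ) ^ (p t * β t) * (X + 1) := by
        set P : ℝ := (k t : ℝ) ^ (p t * β t) with hP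
        have h4 : (0 : ℝ) ≤ P := by positivity
        have h2 : cr * f ≤ A' * (1 + δ) := by nlinarith
        have h3 : cr * f ≤ P * ((1 + η) * (1 + 2 * η) * (1 + η)) := by
          calc cr * f ≤ A' * (1 + δ) := h2
            _ ≤ (K : ℝ) ^ γ * (1 + 2 * η) * (1 + η) := hup
            _ ≤ ((1 + η) * P) * (1 + 2 * η) * (1 + η) := by
                have := hβ2 t
                gcongr
            _ = _ := by ring
        have h5 : (1 + η) * (1 + 2 * η) * (1 + η) ≤ 1 + 16 * η := by nlinarith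
        have h6 : cr * f ≤ P * (1 + 16 * η) := le_trans h3 (mul_le_mul_of_nonneg_left h5 h4)
        calc cr * f * X ≤ P * (1 + 16 * η) * X := mul_le_mul_of_nonneg_right h6 (by positivity)
          _ = P * (X + 16 * (η * X)) := by ring
          _ = P * (X + 1) := by rw [hηX]; ring
      rw [← hbr] at h1
      exact_mod_cast h1

end Pool.Agent.W275.Hind
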