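import Pool.Agent.W275.Hind.Stage

set_option autoImplicit false

/-! The infinite sequence. -/

namespace Pool.Agent.W275.Hind

open Pool.Agent.H672R2.Auto Pool.Agent.H672R2.Auto.Mach

universe u v

/-- all numbers of `Z` and the new combinations with `y` -/
def nextSet (Z : Finset ℕ) (y : ℕ) : Finset ℕ :=
  Z ∪ {y} ∪ Z.image (fun z => z * y) ∪ Z.image (fun z => z + y) ∪
    (Z ×ˢ Z).image (fun q => q.1 + q.2 * y)

theorem exists_seq {m : ℕ} {C : Type v} (k : Fin m → ℕ) (hk : ∀ t, 2 ≤ k t) {K : ℕ} (hK2 : 2 ≤ K)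
    (D : ∀ t, Dec K (k t)) (M : ∀ t, Mach.{u, v} (k t) C) (p : Fin m → ℕ)
    (hper : ∀ t, (M t).IsPer (p t)) (μ u : Fin m → ℕ) (hu : ∀ t, u t < k t ^ μ t)
    (hmin : ∀ t l n, n < k t ^ l → rk ((M t).T (μ t) (u t)) ≤ rk ((M t).T l n)) :
    ∃ (y : ℕ → ℕ) (e : ∀ t, (M t).Q → (M t).Q), StrictMono y ∧ 1 < y 0 ∧
      ∀ P : Finset (Finset ℕ), P.Nonempty → (∀ F ∈ P, F.Nonempty) →
        (P : Set (Finset ℕ)).PairwiseDisjoint id → ∀ t,
          k t ^ p t ∣ ∑ F ∈ P, ∏ i ∈ F, y i ∧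
            (M t).hat (p t) (∑ F ∈ P, ∏ i ∈ F, y i) = e t := by
  classical
  let TyM : ∀ t : Fin m, ℕ → ℕ → Prop := fun t s a =>
    Ty (M t) (p t) (D t).k1 (rk ((M t).T (μ t) (u t))) s a
  let Inv : Finset ℕ → Prop := fun Z => ∀ z ∈ Z, ∀ t, TyM t 0 z
  have hstage : ∀ Z : {Z : Finset ℕ // Inv Z}, ∃ y : ℕ, (∑ z ∈ Z.1, z) + 2 < y ∧
      (∀ t, TyM t (p t * ((∑ z ∈ Z.1, z) + 2)) y ∧ Idm ((M t).hat (p t) y)) ∧
      ∀ z ∈ Z.1, ∀ t, TyM t (p t * ((∑ z ∈ Z.1, z) + 2)) (z * y) ∧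
        Idm ((M t).hat (p t) (z * y)) ∧ SK ((M t).hat (p t) (z * y)) ((M t).hat (p t) z) ∧
        Set.range ((M t).hat (p t) (z * y)) = Set.range ((M t).hat (p t) z) := fun Z =>
    stage k hk hK2 D M p hper μ u hu hmin Z.1 Z.2 _
  choose Y hY1 hY2 hY3 using hstage
  have hsep : ∀ Z : {Z : Finset ℕ // Inv Z}, ∀ z ∈ Z.1, z + 1 < (∑ z ∈ Z.1, z) + 2 := by
    intro Z z hz
    have := Finset.single_le_sum (f := fun z : ℕ => z) (fun _ _ => Nat.zero_le _) hz
    omega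
  have hadd : ∀ (Z : {Z : Finset ℕ // Inv Z}) (z' : ℕ), z' ∈ Z.1 → ∀ (t : Fin m) (s b : ℕ),
      TyM t s z' → TyM t (p t * ((∑ z ∈ Z.1, z) + 2)) b →
      TyM t s (z' + b) ∧ ∀ q, (M t).hat (p t) (z' + b) q = (M t).hat (p t) b ((M t).hat (p t) z' q) := by
    intro Z z' hz' t s b h1 h2
    obtain ⟨g1, _, _, g4⟩ := Ty.add (hper t) (hmin t) h1 (lt_pow_self' (hper t) z')
      (hsep Z z' hz') h2
    exact ⟨g1, g4⟩
  have hnext : ∀ Z : {Z : Finset ℕ // Inv Z}, Inv (nextSet Z.1 (Y Z)) := by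
    intro Z z hz t
    simp only [nextSet, Finset.mem_union, Finset.mem_singleton, Finset.mem_image,
      Finset.mem_product, Prod.exists] at hz
    rcases hz with (((hz | hz) | ⟨z1, hz1, rfl⟩) | ⟨z1, hz1, rfl⟩) | ⟨z1, z2, ⟨hz1, hz2⟩, rfl⟩
    · exact Z.2 z hz t
    · rw [hz]; exact (hY2 Z t).1.mono (Nat.zero_le _)
    · exact (hY3 Z z1 hz1 t).1.mono (Nat.zero_le _)
    · exact (hadd Z z1 hz1 t 0 _ (Z.2 z1 hz1 t) (hY2 Z t).1).1
    · exact (hadd Z z1 hz1 t 0 _ (Z.2 z1 hz1 t) (hY3 Z z2 hz2 t).1).1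
  let Zs : ℕ → {Z : Finset ℕ // Inv Z} := fun n =>
    Nat.rec ⟨∅, by intro z hz; simp at hz⟩ (fun _ Z => ⟨nextSet Z.1 (Y Z), hnext Z⟩) n
  have hZs : ∀ n, (Zs (n + 1)).1 = nextSet (Zs n).1 (Y (Zs n)) := fun n => rfl
  set y : ℕ → ℕ := fun n => Y (Zs n) with hy
  have hsub1 : ∀ n, (Zs n).1 ⊆ (Zs (n + 1)).1 := by
    intro n z hz
    rw [hZs, nextSet]
    simp only [Finset.mem_union]
    tauto
  have hsub : ∀ {a b : ℕ}, a ≤ b → (Zs a).1 ⊆ (Zs b).1 := by
    intro a b hab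
    induction b, hab using Nat.le_induction with
    | base => exact Finset.Subset.refl _
    | succ b _ ih => exact ih.trans (hsub1 b)
  have hymem : ∀ n, y n ∈ (Zs (n + 1)).1 := by
    intro n
    rw [hZs, nextSet]
    simp only [Finset.mem_union, Finset.mem_singleton]
    tauto
  have hmulmem : ∀ n z, z ∈ (Zs n).1 → z * y n ∈ (Zs (n + 1)).1 := by
    intro n z hz
    rw [hZs, nextSet]
    simp only [Finset.mem_union, Finset.mem_image]
    exact Or.inl (Or.inl (Or.inr ⟨z, hz, rfl⟩))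
  have haddmem : ∀ n z, z ∈ (Zs n).1 → z + y n ∈ (Zs (n + 1)).1 := by
    intro n z hz
    rw [hZs, nextSet]
    simp only [Finset.mem_union, Finset.mem_image]
    exact Or.inl (Or.inr ⟨z, hz, rfl⟩)
  have haddmulmem : ∀ n z z', z ∈ (Zs n).1 → z' ∈ (Zs n).1 → z' + z * y n ∈ (Zs (n + 1)).1 := by
    intro n z z' hz hz'
    rw [hZs, nextSet]
    simp only [Finset.mem_union, Finset.mem_image, Finset.mem_product, Prod.exists]
    exact Or.inr ⟨z', z, ⟨hz', hz⟩, rfl⟩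
  have hylt : ∀ n, y n < y (n + 1) := by
    intro n
    have h1 := hY1 (Zs (n + 1))
    have h2 := Finset.single_le_sum (f := fun z : ℕ => z) (fun _ _ => Nat.zero_le _) (hymem n)
    show y n < Y (Zs (n + 1))
    omega
  have hymono : StrictMono y := strictMono_nat_of_lt_succ hylt
  -- pigeonhole
  let Ψ : ℕ → (∀ t : Fin m, (M t).Q → (M t).Q) := fun n t => (M t).hat (p t) (y n)
  obtain ⟨e, he⟩ := Finite.exists_infinite_fiber Ψ
  have heS : ∀ n ∈ Ψ ⁻¹' {e}, ∀ t, (M t).hat (p t) (y n) = e t := by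
    intro n hn t
    have : Ψ n = e := hn
    rw [← this]
  set φ : ℕ ↪o ℕ := Nat.orderEmbeddingOfSet (Ψ ⁻¹' {e}) with hφ
  have hφS : ∀ n, φ n ∈ Ψ ⁻¹' {e} := fun n => Nat.orderEmbeddingOfSet_range (Ψ ⁻¹' {e}) ▸ ⟨n, rfl⟩
  have heidm : ∀ t, Idm (e t) := by
    intro t
    rw [← heS _ (hφS 0) t]
    exact (hY2 (Zs (φ 0)) t).2
  -- good numbers
  let Gd : ℕ → ℕ → Prop := fun n z => z ∈ (Zs n).1 ∧ ∀ t, (M t).hat (p t) z = e t ∧ TyM t (p t) z
  have hGd : ∀ {a b z : ℕ}, a ≤ b → Gd a z → Gd b z := fun hab h => ⟨hsub hab h.1, h.2⟩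
  have hps : ∀ (Z : {Z : Finset ℕ // Inv Z}) t, p t ≤ p t * ((∑ z ∈ Z.1, z) + 2) := fun Z t =>
    Nat.le_mul_of_pos_right _ (by omega)
  have hG1 : ∀ n, Gd (φ n + 1) (y (φ n)) := fun n =>
    ⟨hymem _, fun t => ⟨heS _ (hφS n) t, (hY2 (Zs (φ n)) t).1.mono (hps _ t)⟩⟩
  have hhatmul : ∀ n z, Gd (φ n) z → ∀ t, (M t).hat (p t) (z * y (φ n)) = e t := by
    intro n z hz t
    obtain ⟨g1, g2, g3, g4⟩ := hY3 (Zs (φ n)) z hz.1 t
    have h5 := (hz.2 t).1
    rw [h5] at g3 g4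
    exact idm_eq g2 (heidm t) g3 g4
  have hG2 : ∀ n z, Gd (φ n) z → Gd (φ n + 1) (z * y (φ n)) := fun n z hz =>
    ⟨hmulmem _ _ hz.1, fun t => ⟨hhatmul n z hz t, (hY3 (Zs (φ n)) z hz.1 t).1.mono (hps _ t)⟩⟩
  have hG3 : ∀ n z', Gd (φ n) z' → Gd (φ n + 1) (z' + y (φ n)) := by
    intro n z' hz'
    refine ⟨haddmem _ _ hz'.1, fun t => ?_⟩
    obtain ⟨g1, g2⟩ := hadd (Zs (φ n)) z' hz'.1 t (p t) (y (φ n)) (hz'.2 t).2 (hY2 (Zs (φ n)) t).1
    refine ⟨?_, g1⟩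
    funext q
    rw [g2, (hz'.2 t).1, heS _ (hφS n) t, heidm t]
  have hG4 : ∀ n z z', Gd (φ n) z → Gd (φ n) z' → Gd (φ n + 1) (z' + z * y (φ n)) := by
    intro n z z' hz hz'
    refine ⟨haddmulmem _ _ _ hz.1 hz'.1, fun t => ?_⟩
    obtain ⟨g1, g2⟩ := hadd (Zs (φ n)) z' hz'.1 t (p t) (z * y (φ n)) (hz'.2 t).2
      (hY3 (Zs (φ n)) z hz.1 t).1
    refine ⟨?_, g1⟩
    funext q
    rw [g2, (hz'.2 t).1, hhatmul n z hz t, heidm t]
  have hφ1 : ∀ n, φ n + 1 ≤ φ (n + 1) := fun n => φ.strictMono (Nat.lt_succ_self n)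
  have main : ∀ N : ℕ, ∀ P : Finset (Finset ℕ), P.Nonempty → (∀ F ∈ P, F.Nonempty) →
      (P : Set (Finset ℕ)).PairwiseDisjoint id → (∀ F ∈ P, ∀ i ∈ F, i < N) →
      Gd (φ N) (∑ F ∈ P, ∏ i ∈ F, y (φ i)) := by
    intro N
    induction N with
    | zero =>
      intro P hP hne _ hlt
      obtain ⟨F, hF⟩ := hP
      obtain ⟨i, hi⟩ := hne F hF
      have := hlt F hF i hi
      omega
    | succ N ih =>
      intro P hP hne hdis hlt
      by_cases hcase : ∃ F0 ∈ P, N ∈ F0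
      · obtain ⟨F0, hF0, hNF⟩ := hcase
        have hother : ∀ F ∈ P.erase F0, ∀ i ∈ F, i < N := by
          intro F hF i hi
          have hFP := Finset.mem_of_mem_erase hF
          have h1 := hlt F hFP i hi
          have h2 : i ≠ N := by
            rintro rfl
            have h3 := hdis (Finset.mem_coe.2 hFP) (Finset.mem_coe.2 hF0) (Finset.ne_of_mem_erase hF)
            exact Finset.disjoint_left.1 h3 hi hNF
          omega
        have hF0' : ∀ i ∈ F0.erase N, i < N := by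
          intro i hi
          have h1 := hlt F0 hF0 i (Finset.mem_of_mem_erase hi)
          have h2 := Finset.ne_of_mem_erase hi
          omega
        have hsum : ∑ F ∈ P, ∏ i ∈ F, y (φ i) =
            (∑ F ∈ P.erase F0, ∏ i ∈ F, y (φ i)) + (∏ i ∈ F0.erase N, y (φ i)) * y (φ N) := by
          rw [Finset.prod_erase_mul _ _ hNF, Finset.sum_erase_add _ _ hF0]
        rw [hsum]
        refine hGd (hφ1 N) ?_
        rcases (F0.erase N).eq_empty_or_nonempty with hE | hE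
        · rw [hE, Finset.prod_empty, one_mul]
          rcases (P.erase F0).eq_empty_or_nonempty with hP' | hP'
          · rw [hP', Finset.sum_empty, Nat.zero_add]
            exact hG1 N
          · exact hG3 N _ (ih _ hP' (fun F hF => hne F (Finset.mem_of_mem_erase hF))
              (hdis.subset (by exact_mod_cast Finset.erase_subset _ _)) hother)
        · have hz : Gd (φ N) (∏ i ∈ F0.erase N, y (φ i)) := by
            have := ih {F0.erase N} (Finset.singleton_nonempty _) (by simpa using hE)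
              (by simp) (by simpa using hF0')
            simpa using this
          rcases (P.erase F0).eq_empty_or_nonempty with hP' | hP'
          · rw [hP', Finset.sum_empty, Nat.zero_add]
            exact hG2 N _ hz
          · exact hG4 N _ _ hz (ih _ hP' (fun F hF => hne F (Finset.mem_of_mem_erase hF))
              (hdis.subset (by exact_mod_cast Finset.erase_subset _ _)) hother)
      · push Not at hcase
        refine hGd ((Nat.le_succ _).trans (hφ1 N)) (ih P hP hne hdis ?_)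
        intro F hF i hi
        have h1 := hlt F hF i hi
        have h2 : i ≠ N := by
          rintro rfl
          exact hcase F hF hi
        omega
  refine ⟨fun n => y (φ n), e, hymono.comp φ.strictMono, ?_, ?_⟩
  · have h1 := hY1 (Zs (φ 0))
    show 1 < Y (Zs (φ 0))
    omega
  · intro P hP hne hdis t
    have hb : ∃ N, ∀ F ∈ P, ∀ i ∈ F, i < N := by
      refine ⟨(P.sup id).sup id + 1, fun F hF i hi => ?_⟩
      have h1 : i ∈ P.sup id := Finset.mem_sup.2 ⟨F, hF, hi⟩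
      have h2 : i ≤ (P.sup id).sup id := Finset.le_sup (f := id) h1
      omega
    obtain ⟨N, hN⟩ := hb
    have hg := (main N P hP hne hdis hN).2 t
    exact ⟨hg.2.dvd, hg.1⟩

/-- Main theorem. -/
theorem main {m : ℕ} {C : Type v} (k : Fin m → ℕ) (hk : ∀ t, 2 ≤ k t) (c : Fin m → ℕ → C)
    (hauto : ∀ t, IsAutomatic (k t) (c t)) :
    ∃ (y : ℕ → ℕ) (a : Fin m → C), StrictMono y ∧ 1 < y 0 ∧
      ∀ P : Finset (Finset ℕ), P.Nonempty → (∀ F ∈ P, F.Nonempty) →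
        (P : Set (Finset ℕ)).PairwiseDisjoint id → ∀ t,
          c t (∑ F ∈ P, ∏ i ∈ F, y i) = a t := by
  classical
  choose M hM using fun t => exists_mach (hk t) (hauto t)
  obtain ⟨K, hK2, _, hD⟩ := exists_dec k hk
  choose p hp1 hpid using fun t => (M t).exists_per (hk t)
  have hper : ∀ t, (M t).IsPer (p t) := fun t => ⟨hp1 t, hk t, hpid t⟩
  choose μ u hu hmin using fun t => (M t).exists_min
  obtain ⟨y, e, h1, h2, h3⟩ := exists_seq k hk hK2 (fun t => (hD t).some) M p hper μ u hu hmin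
  refine ⟨y, fun t => (M t).out (e t (M t).q0), h1, h2, fun P hP hne hdis t => ?_⟩
  obtain ⟨h4, h5⟩ := h3 P hP hne hdis t
  rw [← out_hat (hper t) (hM t) h4, h5]

end Pool.Agent.W275.Hind
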