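import Pool.Agent.W275.Hind.Block

set_option autoImplicit false

/-! One stage of the construction. -/

namespace Pool.Agent.W275.Hind

open Pool.Agent.H672R2.Auto Pool.Agent.H672R2.Auto.Mach

universe u v

theorem stage {m : ℕ} {C : Type v} (k : Fin m → ℕ) (hk : ∀ t, 2 ≤ k t) {K : ℕ} (hK2 : 2 ≤ K)
    (D : ∀ t, Dec K (k t)) (M : ∀ t, Mach.{u, v} (k t) C) (p : Fin m → ℕ)
    (hper : ∀ t, (M t).IsPer (p t)) (μ u : Fin m → ℕ) (hu : ∀ t, u t < k t ^ μ t)
    (hmin : ∀ t l n, n < k t ^ l → rk ((M t).T (μ t) (u t)) ≤ rk ((M t).T l n))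
    (Z : Finset ℕ)
    (hZ : ∀ z ∈ Z, ∀ t, Ty (M t) (p t) (D t).k1 (rk ((M t).T (μ t) (u t))) 0 z) (G : ℕ) :
    ∃ y : ℕ, G < y ∧ (∀ t, Ty (M t) (p t) (D t).k1 (rk ((M t).T (μ t) (u t))) (p t * G) y ∧
        Idm ((M t).hat (p t) y)) ∧
      ∀ z ∈ Z, ∀ t, Ty (M t) (p t) (D t).k1 (rk ((M t).T (μ t) (u t))) (p t * G) (z * y) ∧
        Idm ((M t).hat (p t) (z * y)) ∧ SK ((M t).hat (p t) (z * y)) ((M t).hat (p t) z) ∧
        Set.range ((M t).hat (p t) (z * y)) = Set.range ((M t).hat (p t) z) := by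
  classical
  choose! L hL using fun z (hz : z ∈ Z) t =>
    (hZ z hz t).mul (hper t) (hmin t) (D t).hk (D t).cop
  set L0 : ℕ := ∑ z ∈ Z, ∑ t, L z t with hL0
  have hLle : ∀ z ∈ Z, ∀ t, L z t ≤ L0 := by
    intro z hz t
    calc L z t ≤ ∑ t, L z t :=
          Finset.single_le_sum (f := fun t => L z t) (fun _ _ => Nat.zero_le _) (Finset.mem_univ t)
      _ ≤ _ := Finset.single_le_sum (f := fun z => ∑ t, L z t) (fun _ _ => Nat.zero_le _) hz
  set X : ℕ := ∑ z ∈ Z, z + 1 with hX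
  have hzX : ∀ z ∈ Z, z < X := by
    intro z hz
    have := Finset.single_le_sum (f := fun z : ℕ => z) (fun _ _ => Nat.zero_le _) hz
    omega
  choose b hGb hb using fun G => block k hk hK2 D M p hper μ u hu X L0 G (by omega)
  -- the blocks times the elements of Z
  have hzb : ∀ G', ∀ z ∈ Z, ∀ t,
      Ty (M t) (p t) (D t).k1 (rk ((M t).T (μ t) (u t))) (p t * G') (z * b G') ∧
        SK ((M t).hat (p t) (z * b G')) ((M t).hat (p t) z) ∧
        Set.range ((M t).hat (p t) (z * b G')) = Set.range ((M t).hat (p t) z) := by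
    intro G' z hz t
    obtain ⟨σ, β, b', h1, h2, h3, h4, h5, h6, h7⟩ := (hb G' t).2
    have := hL z hz t X (b G') σ β b' (p t * G') (hzX z hz) h1 h3 (by have := hGb G'; omega)
      (h4.of_dvd (pow_dvd_pow _ (hLle z hz t))) ((pow_dvd_pow _ (hLle z hz t)).trans h5) h6 h7 h2
    rwa [Nat.zero_add] at this
  let ι := Option {z // z ∈ Z}
  let val : ι → ℕ := fun o => o.elim 1 (fun z => z.1)
  have hval : ∀ G' (W : ι) t,
      Ty (M t) (p t) (D t).k1 (rk ((M t).T (μ t) (u t))) (p t * G') (val W * b G') := by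
    intro G' W t
    rcases W with _ | ⟨z, hz⟩
    · show Ty _ _ _ _ _ (1 * b G')
      rw [one_mul]
      exact (hb G' t).1
    · exact (hzb G' z hz t).1
  let Ψ : ℕ → (∀ t : Fin m, ι → (M t).Q → (M t).Q) := fun G' t W => (M t).hat (p t) (val W * b G')
  obtain ⟨Φ, hΦ⟩ := Finite.exists_infinite_fiber Ψ
  have hS : (Ψ ⁻¹' {Φ}).Infinite := Set.infinite_coe_iff.1 hΦ
  have hΦS : ∀ G' ∈ Ψ ⁻¹' {Φ}, ∀ t W, (M t).hat (p t) (val W * b G') = Φ t W := by
    intro G' hG' t W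
    have : Ψ G' = Φ := hG'
    rw [← this]
  have assem : ∀ n : ℕ, ∃ d : ℕ, G < d ∧ ∀ t W,
      Ty (M t) (p t) (D t).k1 (rk ((M t).T (μ t) (u t))) (p t * G) (val W * d) ∧
      (M t).hat (p t) (val W * d) = (Φ t W)^[n + 1] ∧
      SK ((M t).hat (p t) (val W * d)) (Φ t W) ∧
      Set.range ((M t).hat (p t) (val W * d)) = Set.range (Φ t W) := by
    intro n
    induction n with
    | zero =>
      obtain ⟨G', hG', hgt⟩ := hS.exists_gt G
      refine ⟨b G', by have := hGb G'; omega, fun t W => ⟨(hval G' W t).mono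
        (Nat.mul_le_mul_left _ hgt.le), ?_, ?_, ?_⟩⟩
      · rw [hΦS G' hG']; rfl
      · rw [hΦS G' hG']; exact fun _ _ => Iff.rfl
      · rw [hΦS G' hG']
    | succ n ih =>
      obtain ⟨d, hd0, hd⟩ := ih
      have : Fintype ι := Fintype.ofFinite ι
      obtain ⟨G', hG', hgt⟩ := hS.exists_gt ((∑ W, val W) * d + 1)
      have hvl : ∀ W, val W * d + 1 < G' := by
        intro W
        have h1 : val W ≤ ∑ W, val W := Finset.single_le_sum (fun _ _ => Nat.zero_le _)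
          (Finset.mem_univ W)
        have := Nat.mul_le_mul_right d h1
        omega
      refine ⟨d + b G', by omega, fun t W => ?_⟩
      obtain ⟨h1, h2, h3, h4⟩ := hd t W
      obtain ⟨g1, g2, g3, g4⟩ := h1.add (hper t) (hmin t) (lt_pow_self' (hper t) (val W * d))
        (hvl W) (hval G' W t)
      rw [← mul_add] at g1 g2 g3 g4
      refine ⟨g1, ?_, g2.trans h3, ?_⟩
      · funext q
        rw [g4, h2, hΦS G' hG', Function.iterate_succ_apply' (Φ t W) (n + 1)]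
      · rw [g3, hΦS G' hG']
  set N : ℕ := ∏ t, (Nat.card (M t).Q).factorial with hN
  have hN0 : 0 < N := Finset.prod_pos fun t _ => Nat.factorial_pos _
  obtain ⟨n, hn⟩ : ∃ n, N = n + 1 := ⟨N - 1, by omega⟩
  obtain ⟨d, hd0, hd⟩ := assem n
  obtain ⟨G1, hG1⟩ := hS.nonempty
  have hidm : ∀ t W, Idm ((M t).hat (p t) (val W * d)) := by
    intro t W
    have hst := (hval G1 W t).stable (hper t) (hmin t)
    rw [hΦS G1 hG1] at hst
    have := (iter_idm hst (N := N) (Finset.dvd_prod_of_mem _ (Finset.mem_univ t)) hN0).1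
    rw [(hd t W).2.1, ← hn]
    exact this
  refine ⟨d, hd0, fun t => ?_, fun z hz t => ?_⟩
  · have h1 := hd t none
    have h2 := hidm t none
    have e : val none * d = d := one_mul d
    rw [e] at h1 h2
    exact ⟨h1.1, h2⟩
  · have h1 := hd t (some ⟨z, hz⟩)
    have h2 := hidm t (some ⟨z, hz⟩)
    have e : val (some ⟨z, hz⟩) * d = z * d := rfl
    rw [e] at h1 h2
    have h3 := hΦS G1 hG1 t (some ⟨z, hz⟩)
    have h4 := hzb G1 z hz t
    have e2 : val (some ⟨z, hz⟩) * b G1 = z * b G1 := rfl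
    rw [e2] at h3
    rw [h3] at h4
    exact ⟨h1.1, h2, h1.2.2.1.trans h4.2.1, h1.2.2.2.trans h4.2.2⟩

end Pool.Agent.W275.Hind
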